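import Mathlib
import Pool.Graph.R_seed8.Helper578.SE.Embed
import Pool.Graph.R_seed8.Helper578.SE.Comp
import Pool.Graph.R_seed8.Helper578.SE.Oracle

/-!
# A primitive recursive linear order whose nontrivial self-embeddings have only fast orbits

There is a primitive recursive linear order such that every function dominating one orbit of a
moved point under a nontrivial self-embedding computes the set of indices of total functions.
-/

set_option autoImplicit false

namespace Pool.Agent.Results.MP_b8791a_lc.FastOrbits

open Pool.Agent.Helper578.SE Nat.Partrec Nat.Partrec.Code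

open Classical in
/-- A function that bounds the limits computes the set of total indices. -/
theorem tot_of_bound (f : ℕ → ℕ) (k0 : ℕ)
    (h : ∀ k L, IsLim W k L → ∃ l ≤ 2 ^ (k + 1), L ≤ f (k0 + l)) :
    TuringReducible
      (fun e : ℕ => Part.some
        (if ∀ n : ℕ, (eval (Denumerable.ofNat Code e) n).Dom then 1 else 0))
      (fun n : ℕ => Part.some (f n)) := by
  refine RecursiveIn.iff_nat.2 ?_
  set M : ℕ → ℕ := fun k => mx (fun l => f (k0 + l)) (2 ^ (k + 1)) with hM
  have hMb : ∀ k L, IsLim W k L → L ≤ M k := by
    intro k L hL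
    obtain ⟨l, hl, h1⟩ := h k L hL
    exact h1.trans (le_mx (fun l => f (k0 + l)) hl)
  have hMrc : Rc f M := by
    have h1 : Rc f (fun l => f (k0 + l)) :=
      (Rc.oracle).comp (Rc.prim (Primrec.nat_add.comp (Primrec.const k0) Primrec.id))
    have h2 : Primrec (fun k : ℕ => 2 ^ (k + 1)) :=
      (Primrec₂.unpaired'.1 Nat.Primrec.pow).comp (Primrec.const 2) Primrec.succ
    exact (Rc.mx h1).comp (Rc.prim h2)
  set t : ℕ → ℕ → ℕ := fun e n => G (M (Nat.pair e (n + 1))) (Nat.pair e n) with ht
  have htrc : Rc f (fun q => t q.unpair.1 q.unpair.2) := by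
    have h1 : Primrec (fun q : ℕ => Nat.pair q.unpair.1 (q.unpair.2 + 1)) :=
      Primrec₂.natPair.comp (Primrec.fst.comp Primrec.unpair)
        (Primrec.succ.comp (Primrec.snd.comp Primrec.unpair))
    have h2 : Primrec (fun q : ℕ => Nat.pair q.unpair.1 q.unpair.2) :=
      Primrec₂.natPair.comp (Primrec.fst.comp Primrec.unpair)
        (Primrec.snd.comp Primrec.unpair)
    have h3 := Rc.comp₂ G_prim (hMrc.comp (Rc.prim h1)) (Rc.prim h2)
    exact h3
  have hfin : Rc f (fun e => al t e (M (Nat.pair e 0))) := by
    have h1 : Rc f (fun e => Nat.pair e (M (Nat.pair e 0))) :=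
      Rc.pair (Rc.prim Primrec.id) (hMrc.comp (Rc.prim
        (Primrec₂.natPair.comp Primrec.id (Primrec.const 0))))
    have h2 := (Rc.al htrc).comp h1
    simpa using h2
  refine Nat.RecursiveIn.of_eq hfin fun e => ?_
  congr 1
  have htG : ∀ n, t e n = if (evaln (M (Nat.pair e (n + 1))) (Denumerable.ofNat Code e) n).isSome
      then 1 else 0 := by
    intro n; simp [ht, G]
  split_ifs with htot
  · apply al_one
    intro n
    rw [htG, if_pos]
    have hex : ∃ v, (evaln v (Denumerable.ofNat Code e) n).isSome = true := by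
      obtain ⟨x, hx⟩ := Part.dom_iff_mem.1 (htot n)
      obtain ⟨k, hk⟩ := evaln_complete.1 hx
      exact ⟨k, Option.isSome_iff_exists.2 ⟨x, hk⟩⟩
    have h1 := Nat.find_spec hex
    exact isSome_mono (hMb _ _ (lim_B h1 fun u hu => Nat.find_min hex hu)) h1
  · push Not at htot
    have h1 := Nat.find_spec htot
    refine al_zero (n := Nat.find htot) (hMb _ _ (lim_A h1 fun v hv => ?_)) ?_
    · exact not_not.1 (Nat.find_min htot hv)
    · rw [htG, if_neg]
      intro hcon
      obtain ⟨x, hx⟩ := Option.isSome_iff_exists.1 hcon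
      exact h1 (Part.dom_iff_mem.2 ⟨x, evaln_sound hx⟩)


open Classical in
/-- The (partial recursive numbering based) set of indices of total computable functions, as a
characteristic function. -/
noncomputable def Tot (e : ℕ) : ℕ :=
  if ∀ n : ℕ, (eval (Denumerable.ofNat Code e) n).Dom then 1 else 0

/-- **There is a primitive recursive linear order `R` on the natural numbers such that for every
self-embedding `f` and every point `a` moved by `f`, every function `h` that eventually dominates
the orbit `n ↦ f^n(a)` computes `Tot`.**  In particular every nontrivial self-embedding computes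
`Tot`. -/
theorem result :
    ∃ R : ℕ → ℕ → Prop,
      (∀ a, ¬ R a a) ∧
      (∀ a b c, R a b → R b c → R a c) ∧
      (∀ a b, R a b ∨ a = b ∨ R b a) ∧
      PrimrecRel R ∧
      ∀ f : ℕ → ℕ, (∀ a b, R a b ↔ R (f a) (f b)) → ∀ a, f a ≠ a →
        (∀ h : ℕ → ℕ, (∀ᶠ n in Filter.atTop, f^[n] a ≤ h n) →
          TuringReducible (fun e : ℕ => Part.some (Tot e)) (fun n : ℕ => Part.some (h n))) ∧
        TuringReducible (fun e : ℕ => Part.some (Tot e)) (fun n : ℕ => Part.some (f n)) := by
  refine ⟨R W, R_irrefl, fun _ _ _ => R_trans, R_tri, R_prim W_prim, ?_⟩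
  · intro f hf a ha
    have hinj : Function.Injective f := by
      intro x y hxy
      rcases R_tri (w := W) x y with h | h | h
      · rw [hf, hxy] at h; exact absurd h (R_irrefl _)
      · exact h
      · rw [hf, hxy] at h; exact absurd h (R_irrefl _)
    refine ⟨fun h hh => ?_, ?_⟩
    · obtain ⟨N, hN⟩ := Filter.eventually_atTop.1 hh
      have hmove : f (f^[N] a) ≠ f^[N] a := by
        intro hcon
        rw [← Function.iterate_succ_apply' f N a, Function.iterate_succ_apply] at hcon
        exact ha (hinj.iterate N hcon)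
      obtain ⟨k0, hk0⟩ := embed approx_W hf hmove
      refine tot_of_bound h (k0 + N) fun k L hL => ?_
      obtain ⟨l, hl, h1⟩ := hk0 k L hL
      refine ⟨l, hl, h1.trans ?_⟩
      rw [← Function.iterate_add_apply]
      have h2 : k0 + l + N = k0 + N + l := by omega
      rw [h2]
      exact hN _ (by omega)
    · obtain ⟨k0, hk0⟩ := embed approx_W hf ha
      exact tot_reducible f a k0 hk0

end Pool.Agent.Results.MP_b8791a_lc.FastOrbits
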